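import Pool.Agent.Helper86.Flow.Law

/-!
# A zero-one law for 1/2-flow-pairs of random cubic graphs

A pair `(π, μ)` of permutations of the vertices, `μ` an involution without fixed points, stands for
the cubic multigraph with the edges `v → π v` (a 2-factor) and the edges `{v, μ v}` (a perfect
matching). By Petersen's theorem every bridgeless cubic multigraph arises in this way. Consider a
random pair, uniformly distributed over all `(2 l)! (2 l - 1)!!` pairs with `2 l` vertices. Let
`r = 2` or `r = 3`.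

If some `r`-edge-connected cubic graph with `2 k` vertices has no `1/2`-flow-pair, then, for all
`l ≥ k`, the random graph with `2 l` vertices is `r`-edge-connected and has no `1/2`-flow-pair with
probability at least `1 / ((2 k - 1)! (2 l) ^ (k + 1))`.

Proof: a vertex of the counterexample is replaced by a long path, one vertex of which keeps the
third edge while the others are joined by chords. Flow-pairs of the new graph give flow-pairs of
the old one. If each chord is added between different edges of the path, then the new graph is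
3-edge-connected if the old one is. This gives `(2 m - 1)!!` graphs for the addition of `2 m`
vertices.
-/

set_option autoImplicit false

namespace Pool.Agent.Results.MP_e59a69_co.ZeroOneLaw

open Equiv Filter

/-- `μ` is a perfect matching: an involution without fixed points. -/
def IsMatching {n : ℕ} (μ : Perm (Fin n)) : Prop := ∀ v, μ v ≠ v ∧ μ (μ v) = v

/-- The number of the edges `v → π v` and `{v, μ v}` with exactly one end in `S`. -/
noncomputable def cut {n : ℕ} (π μ : Perm (Fin n)) (S : Set (Fin n)) : ℕ :=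
  {v | v ∈ S ∧ π v ∉ S}.ncard + {v | v ∉ S ∧ π v ∈ S}.ncard + {v | v ∈ S ∧ μ v ∉ S}.ncard

/-- The graph is `r`-edge-connected: at least `r` edges leave every set of vertices which is neither
empty nor the whole set. For `r = 2` this means: connected and bridgeless. -/
def EdgeConnected {n : ℕ} (r : ℕ) (π μ : Perm (Fin n)) : Prop :=
  ∀ S : Set (Fin n), S.Nonempty → S ≠ Set.univ → r ≤ cut π μ S

/-- `(f, g)` is an integer flow: `f v` is the value on the edge from `v` to `π v`, and `g v` the
value on the matching edge at `v`, counted away from `v`. -/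
def IsFlow {n : ℕ} (π μ : Perm (Fin n)) (f g : Fin n → ℤ) : Prop :=
  (∀ v, g (μ v) = -g v) ∧ ∀ v, f (π v) + g (π v) = f v

/-- A `1/2`-flow-pair: a 2-flow `(f₂, g₂)` and a 4-flow `(f₄, g₄)` such that the 4-flow has absolute
value at least two on every edge on which the 2-flow vanishes. -/
def HasHalfFlowPair {n : ℕ} (π μ : Perm (Fin n)) : Prop :=
  ∃ f₂ g₂ f₄ g₄ : Fin n → ℤ, IsFlow π μ f₂ g₂ ∧ IsFlow π μ f₄ g₄ ∧
    (∀ v, |f₂ v| ≤ 1 ∧ |g₂ v| ≤ 1 ∧ |f₄ v| ≤ 3 ∧ |g₄ v| ≤ 3) ∧
    ∀ v, (f₂ v = 0 → 2 ≤ |f₄ v|) ∧ (g₂ v = 0 → 2 ≤ |g₄ v|)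

/-- All cubic graphs `(π, μ)` with the vertices `0, …, n - 1`. -/
def Cubic (n : ℕ) : Set (Perm (Fin n) × Perm (Fin n)) := {p | IsMatching p.2}

/-- The `r`-edge-connected ones without a `1/2`-flow-pair. -/
def Counterexamples (r n : ℕ) : Set (Perm (Fin n) × Perm (Fin n)) :=
  {p | p ∈ Cubic n ∧ EdgeConnected r p.1 p.2 ∧ ¬ HasHalfFlowPair p.1 p.2}

/-- the values allowed on an edge -/
def Allowed (x : ℤ × ℤ) : Prop := |x.1| ≤ 1 ∧ |x.2| ≤ 3 ∧ (x.1 = 0 → 2 ≤ |x.2|)

theorem hasFlow_iff {n : ℕ} (π μ : Perm (Fin n)) :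
    HasHalfFlowPair π μ ↔ Helper86.Flow.HasFlow Allowed π μ := by
  constructor
  · rintro ⟨f₂, g₂, f₄, g₄, h₂, h₄, hb, hz⟩
    refine ⟨fun v => (f₂ v, f₄ v), fun v => (g₂ v, g₄ v), fun v => ⟨⟨(hb v).1, (hb v).2.2.1,
      (hz v).1⟩, ⟨(hb v).2.1, (hb v).2.2.2, (hz v).2⟩⟩, fun v => ?_, fun v => ?_⟩
    · exact Prod.ext (h₂.1 v) (h₄.1 v)
    · exact Prod.ext (h₂.2 v) (h₄.2 v)
  · rintro ⟨f, g, hP, hg, hf⟩
    refine ⟨fun v => (f v).1, fun v => (g v).1, fun v => (f v).2, fun v => (g v).2,
      ⟨fun v => ?_, fun v => ?_⟩, ⟨fun v => ?_, fun v => ?_⟩,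
      fun v => ⟨(hP v).1.1, (hP v).2.1, (hP v).1.2.1, (hP v).2.2.1⟩,
      fun v => ⟨(hP v).1.2.2, (hP v).2.2.2⟩⟩
    · exact congrArg Prod.fst (hg v)
    · exact congrArg Prod.fst (hf v)
    · exact congrArg Prod.snd (hg v)
    · exact congrArg Prod.snd (hf v)

theorem allowed_neg (x : ℤ × ℤ) (h : Allowed x) : Allowed (-x) := by
  obtain ⟨h1, h2, h3⟩ := h
  refine ⟨?_, ?_, fun h => ?_⟩
  · rw [Prod.fst_neg, abs_neg]
    exact h1
  · rw [Prod.snd_neg, abs_neg]
    exact h2
  · rw [Prod.snd_neg, abs_neg]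
    rw [Prod.fst_neg, neg_eq_zero] at h
    exact h3 h

theorem counterexamples_eq (r n : ℕ) :
    Counterexamples r n = Helper86.Flow.BadR Allowed r n := by
  ext p
  constructor
  · rintro ⟨h1, h2, h3⟩
    exact ⟨h1, h2, fun h => h3 ((hasFlow_iff _ _).mpr h)⟩
  · rintro ⟨h1, h2, h3⟩
    exact ⟨h1, h2, fun h => h3 ((hasFlow_iff _ _).mp h)⟩

/-- **A zero-one law for `1/2`-flow-pairs.** (1) There are `(2 l)! (2 l - 1)!!` cubic graphs
`(π, μ)` with `2 l` vertices. Let `r = 2` or `r = 3`. (2) If there is an `r`-edge-connected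
counterexample with `2 k` vertices then for all `l ≥ k` at least the proportion
`1 / ((2 k - 1)! (2 l) ^ (k + 1))` of the cubic graphs with `2 l` vertices are `r`-edge-connected
counterexamples. (3) So there is no `r`-edge-connected counterexample, or the proportion is at least
`(2 l) ^ (-C)` for a constant `C` and all large `l`. (4) All `r`-edge-connected cubic graphs have
`1/2`-flow-pairs if and only if for every `C` there are arbitrarily large `l` for which the
proportion of the counterexamples with `2 l` vertices is less than `(2 l) ^ (-C)`. -/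
theorem result :
    (∀ l : ℕ, (Cubic (2 * l)).ncard = (2 * l).factorial * (2 * l - 1).doubleFactorial) ∧
    ∀ r : ℕ, r = 2 ∨ r = 3 →
      (∀ k l : ℕ, k ≤ l → (Counterexamples r (2 * k)).Nonempty →
        (Cubic (2 * l)).ncard ≤
          (2 * k - 1).factorial * ((2 * l) ^ (k + 1) * (Counterexamples r (2 * l)).ncard)) ∧
      ((∀ n : ℕ, Counterexamples r n = ∅) ∨ ∃ C : ℕ, ∀ᶠ l : ℕ in atTop,
        (Cubic (2 * l)).ncard ≤ (2 * l) ^ C * (Counterexamples r (2 * l)).ncard) ∧
      ((∀ n : ℕ, Counterexamples r n = ∅) ↔ ∀ C : ℕ, ∃ᶠ l : ℕ in atTop,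
        (2 * l) ^ C * (Counterexamples r (2 * l)).ncard < (Cubic (2 * l)).ncard) := by
  refine ⟨fun l => Helper86.Flow.ncard_cubic_even l, fun r hr => ?_⟩
  have hr2 : 2 ≤ r := by omega
  have hr3 : r ≤ 3 := by omega
  simp only [counterexamples_eq]
  exact ⟨fun _ _ hkl h => Helper86.Flow.manyR Allowed hr2 hr3 allowed_neg hkl h,
    Helper86.Flow.dichotomy Allowed hr2 hr3 allowed_neg,
    Helper86.Flow.criterion Allowed hr2 hr3 allowed_neg⟩

end Pool.Agent.Results.MP_e59a69_co.ZeroOneLaw
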